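import Pool.Agent.L5helper16.LG.Defs4
import Pool.Agent.L5helper69.SR.Sieve

/-! # C1: two classes for each prime, upper bound (project LG of helper16, MP_69be96_nt) -/

set_option autoImplicit false

namespace Pool.Agent.L5helper17.LG

open Finset Pool.Agent.L5helper16.LG Pool.Agent.N728.QL Pool.Agent.N136.QL

theorem c1 : St_C1 := by
  classical
  intro η hη
  obtain ⟨C, hC, H⟩ := t_FLC
  obtain ⟨b1, hb1⟩ := exists_pow_lt_of_lt_one (half_pos hη) (show (1 / 2 : ℝ) < 1 by norm_num)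
  obtain ⟨b, hb⟩ : ∃ b, b = max C b1 := ⟨_, rfl⟩
  have hbC : C ≤ b := hb ▸ le_max_left _ _
  have hbε : (1 / 2 : ℝ) ^ b ≤ η / 2 :=
    (pow_le_pow_of_le_one (by norm_num) (by norm_num) (hb ▸ le_max_right _ _)).trans hb1.le
  obtain ⟨y1, hy1⟩ := exists_nat_ge (2 / η)
  refine ⟨((C * b + 3 : ℕ) : ℝ), by positivity, max 2 y1, fun z y K a hz hzy hK c c' => ?_⟩
  have hy2 : 2 ≤ y := (le_max_left _ _).trans (hz.trans hzy)
  have hyr : (2 : ℝ) ≤ y := by exact_mod_cast hy2
  have hye : 2 / η ≤ y := hy1.trans (by exact_mod_cast ((le_max_right _ _).trans (hz.trans hzy)))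
  set S := prI z y with hSdef
  have hS : ∀ p ∈ S, p.Prime ∧ p ≤ y := by
    intro p hp
    rw [hSdef] at hp
    unfold prI at hp
    rw [mem_filter, mem_Ioc] at hp
    exact ⟨hp.2, hp.1.2⟩
  set Om : ℕ → Finset ℕ := fun p => if p ∈ S then {c p % p, c' p % p} else ∅ with hOm
  have h1 := H b y Om ((a : ℤ) - 1) ((a : ℤ) + K - 1) hbC hy2 ?_ (by omega)
  swap
  · intro p hp _
    by_cases hpS : p ∈ S
    · simp only [hOm, if_pos hpS]
      refine ⟨?_, (card_le_two).trans (by norm_num)⟩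
      intro x hx
      rw [mem_insert, mem_singleton] at hx
      rw [mem_range]
      rcases hx with rfl | rfl
      · exact Nat.mod_lt _ hp.pos
      · exact Nat.mod_lt _ hp.pos
    · simp only [hOm, if_neg hpS, card_empty]
      exact ⟨empty_subset _, by norm_num⟩
  have hprod : ∏ p ∈ (Ioc 0 y).filter Nat.Prime, (1 - ((Om p).card : ℝ) / p) =
      ∏ p ∈ S, (1 - ((Om p).card : ℝ) / p) := by
    have hsub : S ⊆ (Ioc 0 y).filter Nat.Prime := by
      intro p hp
      rw [mem_filter, mem_Ioc]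
      exact ⟨⟨(hS p hp).1.pos, (hS p hp).2⟩, (hS p hp).1⟩
    rw [← prod_subset hsub (f := fun p => 1 - ((Om p).card : ℝ) / p)]
    intro p _ hp
    simp only [hOm, if_neg hp, card_empty, Nat.cast_zero, zero_div, sub_zero]
  have hcard : ((Ioc ((a : ℤ) - 1) ((a : ℤ) + K - 1)).filter
      (fun t : ℤ => ∀ p : ℕ, p.Prime → p ≤ y → (t % p).toNat ∉ Om p)).card =
      ((Ico a (a + K)).filter
        (fun k => ∀ p ∈ S, ¬ k ≡ c p [MOD p] ∧ ¬ k ≡ c' p [MOD p])).card := by
    symm
    refine card_bij (fun k _ => (k : ℤ)) ?_ ?_ ?_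
    · intro k hk
      rw [mem_filter, mem_Ico] at hk
      rw [mem_filter, mem_Ioc]
      refine ⟨by omega, fun p hp _ hmem => ?_⟩
      by_cases hpS : p ∈ S
      · simp only [hOm, if_pos hpS, mem_insert, mem_singleton] at hmem
        have e : ((k : ℤ) % p).toNat = k % p := by
          rw [← Int.natCast_mod, Int.toNat_natCast]
        rw [e] at hmem
        rcases hmem with hmem | hmem
        · exact (hk.2 p hpS).1 hmem
        · exact (hk.2 p hpS).2 hmem
      · simp only [hOm, if_neg hpS] at hmem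
        exact absurd hmem (notMem_empty _)
    · intro k _ k' _ h
      exact_mod_cast h
    · intro t ht
      rw [mem_filter, mem_Ioc] at ht
      obtain ⟨k, rfl⟩ := Int.eq_ofNat_of_zero_le (show 0 ≤ t by omega)
      refine ⟨k, ?_, rfl⟩
      rw [mem_filter, mem_Ico]
      refine ⟨by omega, fun p hp => ?_⟩
      have h3 := ht.2 p (hS p hp).1 (hS p hp).2
      have e : (((k : ℕ) : ℤ) % p).toNat = k % p := by
        rw [← Int.natCast_mod, Int.toNat_natCast]
      simp only [hOm, if_pos hp, mem_insert, mem_singleton, not_or] at h3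
      rw [e] at h3
      exact ⟨fun hmod => h3.1 hmod, fun hmod => h3.2 hmod⟩
  rw [hprod, hcard] at h1
  have hlen : (((a : ℤ) + K - 1 : ℤ) : ℝ) - (((a : ℤ) - 1 : ℤ) : ℝ) = K := by
    push_cast
    ring
  rw [hlen] at h1
  set V2 := ∏ p ∈ S, (1 - ((Om p).card : ℝ) / p) with hV2
  set A := S.filter (fun p => c p ≡ c' p [MOD p]) with hA
  set W := VV S ^ 2 * ∏ p ∈ A, (1 - 1 / (p : ℝ))⁻¹ with hW
  have hVy : 1 / (y : ℝ) ≤ VV S := Pool.Agent.L5helper69.SR.prod_ge y (by omega) S hS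
  have hbd : ∀ p ∈ S, 0 < 1 - 1 / (p : ℝ) ∧ 1 - 1 / (p : ℝ) ≤ 1 ∧ (2 : ℝ) ≤ p := by
    intro p hp
    have h2 : (2 : ℝ) ≤ p := by exact_mod_cast (hS p hp).1.two_le
    have h3 : 1 / (p : ℝ) ≤ 1 / 2 := by
      apply one_div_le_one_div_of_le (by norm_num) h2
    have h4 : 0 ≤ 1 / (p : ℝ) := by positivity
    exact ⟨by linarith, by linarith, h2⟩
  have hV2W : V2 ≤ W := by
    have hWp : W = ∏ p ∈ S, ((1 - 1 / (p : ℝ)) ^ 2 *
        (if c p ≡ c' p [MOD p] then (1 - 1 / (p : ℝ))⁻¹ else 1)) := by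
      rw [prod_mul_distrib, prod_pow, hW, hA, prod_filter]
      rfl
    rw [hWp, hV2]
    refine prod_le_prod (fun p hp => ?_) (fun p hp => ?_)
    · obtain ⟨_, _, h2⟩ := hbd p hp
      have h3 : ((Om p).card : ℝ) ≤ 2 := by
        simp only [hOm, if_pos hp]
        exact_mod_cast card_le_two
      have h4 : ((Om p).card : ℝ) / p ≤ 1 := by
        rw [div_le_one (by linarith)]
        linarith
      linarith
    · obtain ⟨h0, _, h2⟩ := hbd p hp
      by_cases hmod : c p ≡ c' p [MOD p]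
      · rw [if_pos hmod]
        have h3 : Om p = {c p % p} := by
          simp only [hOm, if_pos hp]
          have h4 : c' p % p = c p % p := hmod.symm
          rw [h4, pair_eq_singleton]
        rw [h3, card_singleton, Nat.cast_one, sq, mul_assoc, mul_inv_cancel₀ h0.ne', mul_one]
      · rw [if_neg hmod, mul_one]
        have h3 : (Om p).card = 2 := by
          simp only [hOm, if_pos hp]
          exact card_pair hmod
        rw [h3]
        have h4 : (0 : ℝ) ≤ (1 / (p : ℝ)) ^ 2 := by positivity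
        have h5 : ((2 : ℕ) : ℝ) / (p : ℝ) = 2 * (1 / (p : ℝ)) := by
          push_cast
          ring
        rw [h5]
        nlinarith
  have hAprod : 1 ≤ ∏ p ∈ A, (1 - 1 / (p : ℝ))⁻¹ := by
    refine Finset.prod_induction _ (fun x : ℝ => 1 ≤ x)
      (fun a b ha hb => one_le_mul_of_one_le_of_one_le ha hb) le_rfl ?_
    intro p hp
    obtain ⟨h0, h1', _⟩ := hbd p (mem_filter.1 hp).1
    exact (one_le_inv₀ h0).2 h1'
  have hWy : 1 / (y : ℝ) ^ 2 ≤ W := by
    have h2 : (1 / (y : ℝ)) ^ 2 ≤ VV S ^ 2 := pow_le_pow_left₀ (by positivity) hVy 2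
    have h3 : VV S ^ 2 ≤ W := by
      rw [hW]
      exact le_mul_of_one_le_right (sq_nonneg _) hAprod
    calc 1 / (y : ℝ) ^ 2 = (1 / (y : ℝ)) ^ 2 := by rw [div_pow, one_pow]
      _ ≤ VV S ^ 2 := h2
      _ ≤ W := h3
  have hKr : (y : ℝ) ^ (C * b + 3) ≤ K := by
    rw [← Real.rpow_natCast]
    exact hK
  have hK0 : (0 : ℝ) < K := lt_of_lt_of_le (by positivity) hKr
  have herr : (y : ℝ) ^ (C * b) ≤ η / 2 * (K * W) := by
    have h2 : (y : ℝ) ^ (C * b) * y ≤ K * W := by
      calc (y : ℝ) ^ (C * b) * y = (y : ℝ) ^ (C * b + 3) * (1 / (y : ℝ) ^ 2) := by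
            rw [pow_add]
            field_simp
        _ ≤ K * W := mul_le_mul hKr hWy (by positivity) hK0.le
    have h3 : (y : ℝ) ^ (C * b) * (2 / η) ≤ K * W :=
      le_trans (mul_le_mul_of_nonneg_left hye (by positivity)) h2
    have h4 : (y : ℝ) ^ (C * b) = η / 2 * ((y : ℝ) ^ (C * b) * (2 / η)) := by
      field_simp
    rw [h4]
    exact mul_le_mul_of_nonneg_left h3 (by positivity)
  have hV20 : 0 ≤ V2 := by
    rw [hV2]
    refine prod_nonneg fun p hp => ?_
    obtain ⟨_, _, h2⟩ := hbd p hp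
    have h3 : ((Om p).card : ℝ) ≤ 2 := by
      simp only [hOm, if_pos hp]
      exact_mod_cast card_le_two
    have h4 : ((Om p).card : ℝ) / p ≤ 1 := by
      rw [div_le_one (by linarith)]
      linarith
    linarith
  have hmain : (1 / 2 : ℝ) ^ b * (K * V2) ≤ η / 2 * (K * V2) :=
    mul_le_mul_of_nonneg_right hbε (by positivity)
  have hKV : (K : ℝ) * V2 ≤ K * W := mul_le_mul_of_nonneg_left hV2W hK0.le
  have h5 := (abs_le.1 h1).2
  have h6 : (#((Ico a (a + K)).filter fun k => ∀ p ∈ S, ¬ k ≡ c p [MOD p] ∧ ¬ k ≡ c' p [MOD p]) : ℝ) ≤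
      (1 + η) * (K * W) := by
    nlinarith
  calc _ ≤ (1 + η) * (K * W) := by convert h6 using 3
    _ = _ := by
      rw [hW]
      ring

end Pool.Agent.L5helper17.LG
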